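import Mathlib
import Pool.Agent.R120.PowerDef
import Pool.Agent.R120.PowerFinal

set_option autoImplicit false

namespace Pool.Agent.Results.MP_8f6629_co.ArbitrarilyLong

open Pool.Agent.R120.PowerDef

/-- For every `k ≥ 3` and every `N` there is a permutation of length at least `N` which is bicrucial
with respect to `k`-th powers. -/
theorem result : ∀ k : ℕ, 3 ≤ k → ∀ N : ℕ, ∃ n : ℕ, N ≤ n ∧
    ∃ σ : Equiv.Perm (Fin n), Bicrucial k σ := by
  intro k hk N
  set m := N + k * (Pool.Agent.R120.PowerCore.lam k + 4) with hm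
  have hl := Pool.Agent.R120.ExtSq.le_len (m + 1)
  obtain ⟨σ, hσ⟩ := Pool.Agent.R120.PowerCore.exists_perm (k := k) (m := m + 1) hk
  exact ⟨_, by omega, σ, Pool.Agent.R120.PowerCore.bicrucial hk (by omega) σ hσ⟩

end Pool.Agent.Results.MP_8f6629_co.ArbitrarilyLong
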